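import Pool.Agent.Y305.WD.Stm

/-!
# Glueing functions on disjoint clopen sets (job WD-GLUE)
-/

set_option autoImplicit false

open Filter Topology Set

namespace Pool.Agent.Y406.WD

open Pool.Agent.Y305.WD (S_GLUE)

universe u

open Classical in
/-- extension by zero from a clopen set -/
noncomputable def ez {K : Type u} [TopologicalSpace K] {P : Set K} (hP : IsClopen P)
    (s : C(P, ℂ)) : C(K, ℂ) :=
  ⟨fun x => if h : x ∈ P then s ⟨x, h⟩ else 0, by
    rw [continuous_iff_continuousAt]
    intro x
    by_cases hx : x ∈ P
    · have h1 : ContinuousOn (fun x => if h : x ∈ P then s ⟨x, h⟩ else 0) P := by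
        rw [continuousOn_iff_continuous_domRestrict]
        have h2 : P.domRestrict (fun x => if h : x ∈ P then s ⟨x, h⟩ else 0) = s := by
          funext y
          rw [Set.domRestrict_apply, dif_pos y.2]
        rw [h2]
        exact s.continuous
      exact h1.continuousAt (hP.isOpen.mem_nhds hx)
    · have h1 : (fun _ : K => (0 : ℂ)) =ᶠ[𝓝 x] fun x => if h : x ∈ P then s ⟨x, h⟩ else 0 := by
        filter_upwards [hP.compl.isOpen.mem_nhds hx] with y hy
        rw [dif_neg hy]
      exact continuousAt_const.congr h1⟩

lemma ez_mem {K : Type u} [TopologicalSpace K] {P : Set K} (hP : IsClopen P) (s : C(P, ℂ))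
    (x : P) : ez hP s x = s x := by
  unfold ez
  exact dif_pos x.2

lemma ez_not {K : Type u} [TopologicalSpace K] {P : Set K} (hP : IsClopen P) (s : C(P, ℂ))
    {x : K} (hx : x ∉ P) : ez hP s x = 0 := by
  unfold ez
  exact dif_neg hx

/-- **Glueing.** -/
theorem glue : S_GLUE.{u} := by
  classical
  intro K _ P hP hd s J hJ
  refine ⟨∑ j ∈ Finset.range J, ez (hP j) (s j), ?_, ?_⟩
  · intro j x
    rw [ContinuousMap.coe_sum, Finset.sum_apply]
    by_cases hj : j < J
    · rw [Finset.sum_eq_single j]
      · exact ez_mem (hP j) (s j) x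
      · intro i _ hij
        exact ez_not (hP i) (s i) fun hx => Set.disjoint_left.1 (hd i j hij) hx x.2
      · intro h
        exact absurd (Finset.mem_range.2 hj) h
    · rw [Finset.sum_eq_zero]
      · rw [hJ j (not_lt.1 hj)]
        rfl
      · intro i hi
        have hij : i ≠ j := by
          rintro rfl
          exact hj (Finset.mem_range.1 hi)
        exact ez_not (hP i) (s i) fun hx => Set.disjoint_left.1 (hd i j hij) hx x.2
  · intro x hx
    rw [ContinuousMap.coe_sum, Finset.sum_apply, Finset.sum_eq_zero]
    intro i _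
    exact ez_not (hP i) (s i) (hx i)

end Pool.Agent.Y406.WD
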